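import Pool.Agent.Helper69.GU.Defs

set_option autoImplicit false

/-! NUMU: the number of generators (module of MP_97687e_co). -/

namespace Pool.Agent.Helper69.GU

open Polynomial
open Pool.Agent.Helper51.GT (Mat PMat fr Dat dg Zm Fil Cir flp Red gprod Zp Filp Circ tr4)

theorem numu_fr_add {K : Type} [Field K] (φ : K ≃+* K) (i j : ℕ) (x : K) :
    fr φ (i + j) x = fr φ i (fr φ j x) := by
  unfold fr
  rw [pow_add]
  rfl

theorem numu_fr_pow {K : Type} [Field K] (φ : K ≃+* K) (q : ℕ) (h : ∀ x, φ x = x ^ q) (i : ℕ)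
    (x : K) : fr φ i x = x ^ (q ^ i) := by
  induction i generalizing x with
  | zero => simp [fr]
  | succ n ih =>
    rw [numu_fr_add, ih]
    have : fr φ 1 x = x ^ q := by
      unfold fr
      rw [pow_one]
      exact h x
    rw [this, ← pow_mul, pow_succ, mul_comm]

/-- at least `d` roots of unity of order dividing `d` -/
theorem numu_roots {K : Type} [Field K] [Finite K] (d : ℕ) (hd : 0 < d)
    (h : d ∣ Nat.card Kˣ) : d ≤ Nat.card {x : K // x ^ d = 1} := by
  obtain ⟨g, hg⟩ := IsCyclic.exists_generator (α := Kˣ)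
  have ho : orderOf g = Nat.card Kˣ := orderOf_eq_card_of_forall_mem_zpowers hg
  obtain ⟨e, he⟩ := h
  have hn : 0 < Nat.card Kˣ := Nat.card_pos
  have he0 : 0 < e := by
    rcases Nat.eq_zero_or_pos e with h0 | h0
    · rw [h0, mul_zero] at he
      omega
    · exact h0
  have hu : orderOf (g ^ e) = d := by
    rw [orderOf_pow_of_dvd he0.ne' (by rw [ho, he]; exact dvd_mul_left e d), ho, he,
      Nat.mul_div_cancel _ he0]
  have hc : Nat.card (Subgroup.zpowers (g ^ e)) = d := by rw [Nat.card_zpowers, hu]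
  have hmem : ∀ x : Subgroup.zpowers (g ^ e), ((x : Kˣ) : K) ^ d = 1 := by
    intro x
    obtain ⟨k, hk⟩ := Subgroup.mem_zpowers_iff.1 x.2
    have h1 : (x : Kˣ) ^ d = 1 := by
      rw [← hk, ← zpow_natCast, ← zpow_mul, mul_comm, zpow_mul, zpow_natCast]
      have h2 : (g ^ e) ^ d = 1 := by
        rw [← hu]
        exact pow_orderOf_eq_one _
      rw [h2, one_zpow]
    have h3 := congrArg (fun y : Kˣ => (y : K)) h1
    simpa using h3
  calc d = Nat.card (Subgroup.zpowers (g ^ e)) := hc.symm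
    _ ≤ Nat.card {x : K // x ^ d = 1} := by
        refine Nat.card_le_card_of_injective
          (fun x : Subgroup.zpowers (g ^ e) => (⟨((x : Kˣ) : K), hmem x⟩ : {x : K // x ^ d = 1})) ?_
        intro x y hxy
        have h1 := congrArg Subtype.val hxy
        exact Subtype.ext (Units.ext h1)

/-- solutions of `τ ^ (q + 1) = ν` -/
theorem numu_solve {K : Type} [Field K] [Finite K] (a b : ℕ) (hb : 0 < b)
    (h : a ∣ (Nat.card Kˣ) / b) (hb2 : b ∣ Nat.card Kˣ) (ν : K) (hν : ν ≠ 0) (h1 : ν ^ b = 1) :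
    ∃ τ : K, τ ≠ 0 ∧ τ ^ a = ν := by
  obtain ⟨g, hg⟩ := IsCyclic.exists_generator (α := Kˣ)
  have ho : orderOf g = Nat.card Kˣ := orderOf_eq_card_of_forall_mem_zpowers hg
  obtain ⟨k, hk⟩ : ∃ k : ℕ, g ^ k = Units.mk0 ν hν := by
    have := hg (Units.mk0 ν hν)
    rw [← mem_powers_iff_mem_zpowers] at this
    obtain ⟨k, hk⟩ := this
    exact ⟨k, hk⟩
  have h2 : g ^ (k * b) = 1 := by
    rw [pow_mul, hk]
    apply Units.ext
    simpa using h1
  have h3 : Nat.card Kˣ ∣ k * b := by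
    rw [← ho]
    exact orderOf_dvd_of_pow_eq_one h2
  obtain ⟨e, he⟩ := hb2
  have h4 : e ∣ k := by
    rw [he, mul_comm b e] at h3
    exact Nat.dvd_of_mul_dvd_mul_right hb h3
  have h5 : a ∣ k := by
    rw [he, Nat.mul_div_cancel_left _ hb] at h
    exact h.trans h4
  obtain ⟨l, hl⟩ := h5
  refine ⟨((g ^ l : Kˣ) : K), Units.ne_zero _, ?_⟩
  have h6 : (g ^ l) ^ a = Units.mk0 ν hν := by
    rw [← pow_mul, mul_comm, ← hl, hk]
  have h7 := congrArg (fun y : Kˣ => (y : K)) h6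
  simpa using h7

theorem st_NUMU : ST_NUMU := by
  classical
  intro K _ _ φ ρ r hr hD hρ hcard hφ
  obtain ⟨q0, hq0⟩ : ∃ q : ℕ, q = 2 ^ r := ⟨_, rfl⟩
  rw [← hq0] at hcard ⊢
  have hq02 : 2 ≤ q0 := by
    rw [hq0]
    calc 2 = 2 ^ 1 := (pow_one 2).symm
      _ ≤ 2 ^ r := Nat.pow_le_pow_right (by norm_num) hr
  have hφq : ∀ x, φ x = x ^ q0 := by
    rw [hq0]
    exact hφ
  have h2 : (2 : K) = 0 := hD.two
  have hxx : ∀ x : K, x + x = 0 := fun x => by rw [← two_mul, h2, zero_mul]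
  obtain ⟨q, hq⟩ : ∃ q : ℕ, q = q0 ^ 2 := ⟨_, rfl⟩
  have hq4 : 4 ≤ q := by
    rw [hq]
    nlinarith
  have f2 : ∀ x, fr φ 2 x = x ^ q := fun x => by rw [numu_fr_pow φ q0 hφq, hq]
  have f4 : ∀ x, fr φ 4 x = x ^ (q ^ 2) := fun x => by
    rw [numu_fr_pow φ q0 hφq, hq, ← pow_mul]
  have hadd : ∀ x, fr φ 4 x = fr φ 2 (fr φ 2 x) := fun x => numu_fr_add φ 2 2 x
  have hcq : Nat.card K = q ^ 4 := by rw [hcard, hq, ← pow_mul]
  have hcu : Nat.card Kˣ = q ^ 4 - 1 := by
    have := Nat.card_eq_card_units_add_one (α := K)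
    omega
  have hfac : q ^ 4 - 1 = (q - 1) * ((q + 1) * (q ^ 2 + 1)) := by
    obtain ⟨k, rfl⟩ : ∃ k, q = k + 1 := ⟨q - 1, by omega⟩
    have h1 : k + 1 - 1 = k := by omega
    rw [h1]
    have h3 : (k + 1) ^ 4 = k * ((k + 1 + 1) * ((k + 1) ^ 2 + 1)) + 1 := by ring
    omega
  have hρ1 : fr φ 2 ρ = ρ⁻¹ := eq_inv_of_mul_eq_one_right hρ.mul
  have hρ0 : ρ ≠ 0 := by
    intro h0
    have := hρ.mul
    rw [h0, zero_mul] at this
    exact zero_ne_one this
  -- the set of a
  set Rp : K[X] := C ρ * X * (1 + X ^ (2 * q)) + C ρ⁻¹ * X ^ q * (1 + X ^ 2) with hRp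
  have hRe : ∀ a : K, Rp.eval a = ρ * a * (1 + (a ^ q) ^ 2) + ρ⁻¹ * a ^ q * (1 + a ^ 2) := by
    intro a
    rw [hRp]
    simp only [eval_add, eval_mul, eval_C, eval_X, eval_pow, eval_one]
    rw [← pow_mul, mul_comm q 2]
  have hRd : Rp.natDegree ≤ 2 * q + 1 := by
    rw [hRp]
    refine natDegree_add_le_of_degree_le ?_ ?_
    · refine (natDegree_mul_le).trans ?_
      have e1 : (C ρ * X : K[X]).natDegree ≤ 1 :=
        (natDegree_C_mul_le _ _).trans natDegree_X_le
      have e2 : (1 + X ^ (2 * q) : K[X]).natDegree ≤ 2 * q := by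
        refine natDegree_add_le_of_degree_le ?_ ?_
        · rw [natDegree_one]
          omega
        · exact natDegree_X_pow_le _
      omega
    · refine (natDegree_mul_le).trans ?_
      have e1 : (C ρ⁻¹ * X ^ q : K[X]).natDegree ≤ q := natDegree_C_mul_X_pow_le _ _
      have e2 : (1 + X ^ 2 : K[X]).natDegree ≤ 2 := by
        refine natDegree_add_le_of_degree_le ?_ ?_
        · rw [natDegree_one]
          omega
        · exact natDegree_X_pow_le _
      omega
  have hR0 : Rp ≠ 0 := by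
    intro h0
    have h1 : Rp.coeff 1 = ρ := by
      have e : Rp = C ρ * X + C ρ * X ^ (2 * q + 1) + C ρ⁻¹ * X ^ q + C ρ⁻¹ * X ^ (q + 2) := by
        rw [hRp]
        ring
      rw [e]
      simp only [coeff_add, coeff_C_mul, coeff_X_pow, coeff_X_one]
      rw [if_neg (by omega), if_neg (by omega), if_neg (by omega)]
      ring
    rw [h0, coeff_zero] at h1
    exact hρ0 h1.symm
  haveI hft : Fintype K := Fintype.ofFinite K
  set S : Finset K := Finset.univ.filter (fun a => a ^ (q ^ 2 + 1) = 1) with hS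
  have hScard : q ^ 2 + 1 ≤ S.card := by
    have h1 := numu_roots (K := K) (q ^ 2 + 1) (by positivity) (by
      rw [hcu, hfac]
      exact Dvd.dvd.mul_left (dvd_mul_left _ _) _)
    have h3 : Nat.card {x : K // x ^ (q ^ 2 + 1) = 1} = S.card := by
      rw [hS]
      exact Nat.subtype_card _ (by intro x; simp)
    omega
  set S' : Finset K := S.filter (fun a => Rp.eval a ≠ 0) with hS'
  have hS'card : q ^ 2 - 2 * q ≤ S'.card := by
    have h1 : S.card ≤ S'.card + Rp.roots.toFinset.card := by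
      have h3 : S ⊆ S' ∪ Rp.roots.toFinset := by
        intro a ha
        by_cases h : Rp.eval a = 0
        · apply Finset.mem_union_right
          rw [Multiset.mem_toFinset, mem_roots hR0]
          exact h
        · apply Finset.mem_union_left
          exact Finset.mem_filter.2 ⟨ha, h⟩
      exact (Finset.card_le_card h3).trans (Finset.card_union_le _ _)
    have h3 : Rp.roots.toFinset.card ≤ 2 * q + 1 :=
      (Multiset.toFinset_card_le _).trans ((card_roots' _).trans hRd)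
    omega
  -- properties of a in S'
  have hprop : ∀ a ∈ S', a * fr φ 4 a = 1 ∧ a ≠ 1 ∧ ∃ τ : K, τ ≠ 0 ∧ τ ^ (q ^ 2 - 1) = 1 ∧
      τ ^ (q + 1) * ((a + fr φ 2 a) * (1 + a * fr φ 2 a)) =
        ρ * a * (1 + fr φ 2 a ^ 2) + ρ⁻¹ * fr φ 2 a * (1 + a ^ 2) := by
    intro a ha
    obtain ⟨haS, haR⟩ := Finset.mem_filter.1 ha
    have ha1 : a ^ (q ^ 2 + 1) = 1 := (Finset.mem_filter.1 haS).2
    have ha0 : a ≠ 0 := by
      rintro rfl
      rw [zero_pow (by positivity)] at ha1
      exact zero_ne_one ha1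
    have h4 : a * fr φ 4 a = 1 := by
      rw [f4, ← pow_succ']
      exact ha1
    rw [hRe] at haR
    have hne1 : a ≠ 1 := by
      rintro rfl
      apply haR
      rw [one_pow, one_pow]
      linear_combination (ρ + ρ⁻¹) * h2
    refine ⟨h4, hne1, ?_⟩
    set b := fr φ 2 a with hb
    have hb2 : fr φ 2 b = fr φ 4 a := by rw [hadd]
    have hb2' : fr φ 2 b = a⁻¹ := by rw [hb2]; exact eq_inv_of_mul_eq_one_right h4
    have hbq : b = a ^ q := f2 a
    have hsq : a ^ 2 = 1 → a = 1 := by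
      intro h
      have h5 : (a - 1) ^ 2 = 0 := by
        linear_combination h + (1 - a) * h2
      exact sub_eq_zero.1 (pow_eq_zero_iff (two_ne_zero) |>.1 h5)
    have hab : a + b ≠ 0 := by
      intro h
      have h5 : b = a := by linear_combination h - hxx a
      have h6 : fr φ 2 b = a := by rw [h5, ← hb, h5]
      rw [hb2'] at h6
      apply hne1
      apply hsq
      have h7 : a * a⁻¹ = 1 := mul_inv_cancel₀ ha0
      rw [h6] at h7
      rw [pow_two]
      exact h7
    have hab1 : 1 + a * b ≠ 0 := by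
      intro h
      have h5 : a * b = 1 := by linear_combination h - h2
      have h6 : fr φ 2 (a * b) = 1 := by rw [h5, map_one]
      rw [map_mul, ← hb, hb2'] at h6
      have h7 : b = a := by
        have h8 : b * a⁻¹ * a = a := by rw [h6, one_mul]
        rwa [mul_assoc, inv_mul_cancel₀ ha0, mul_one] at h8
      rw [h7] at h5
      apply hne1
      apply hsq
      rw [pow_two]
      exact h5
    have hden : (a + b) * (1 + a * b) ≠ 0 := mul_ne_zero hab hab1
    set R := ρ * a * (1 + b ^ 2) + ρ⁻¹ * b * (1 + a ^ 2) with hR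
    have hRne : R ≠ 0 := by
      rw [hR, hbq]
      exact haR
    set ν := R / ((a + b) * (1 + a * b)) with hν
    have hν0 : ν ≠ 0 := div_ne_zero hRne hden
    have hνq : ν ^ q = ν := by
      rw [← f2, hν, map_div₀, hR]
      simp only [map_add, map_mul, map_pow, map_one, map_inv₀, hρ1, ← hb, hb2', inv_inv]
      have e1 : b + a⁻¹ = (1 + a * b) / a := by
        field_simp
        ring
      have e2 : 1 + b * a⁻¹ = (a + b) / a := by
        field_simp
      have e3 : 1 + a⁻¹ ^ 2 = (1 + a ^ 2) / a ^ 2 := by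
        field_simp
        ring
      rw [e1, e2, e3]
      field_simp
      ring
    have hν1 : ν ^ (q - 1) = 1 := by
      have h5 : ν ^ (q - 1) * ν = 1 * ν := by
        rw [← pow_succ, one_mul]
        have : q - 1 + 1 = q := by omega
        rw [this, hνq]
      exact mul_right_cancel₀ hν0 h5
    obtain ⟨τ, hτ0, hτ⟩ := numu_solve (q + 1) (q - 1) (by omega) (by
      rw [hcu, hfac, Nat.mul_div_cancel_left _ (by omega)]
      exact dvd_mul_right _ _) (by rw [hcu, hfac]; exact dvd_mul_right _ _) ν hν0 hν1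
    refine ⟨τ, hτ0, ?_, ?_⟩
    · have h5 : q ^ 2 - 1 = (q + 1) * (q - 1) := by
        obtain ⟨k, rfl⟩ : ∃ k, q = k + 1 := ⟨q - 1, by omega⟩
        have h1 : k + 1 - 1 = k := by omega
        rw [h1]
        have h3 : (k + 1) ^ 2 = (k + 1 + 1) * k + 1 := by ring
        omega
      rw [h5, pow_mul, hτ, hν1]
    · rw [hτ, hν, div_mul_cancel₀ _ hden]
  choose! τ₀ hτ₀ using fun a (ha : a ∈ S') => (hprop a ha).2.2
  -- the injection
  let Zt := {x : K // x ^ (q + 1) = 1}
  have hZt : q + 1 ≤ Nat.card Zt := numu_roots (q + 1) (by omega) (by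
    rw [hcu, hfac]
    exact Dvd.dvd.mul_left (dvd_mul_right _ _) _)
  have hζ : ∀ ζ : Zt, ζ.1 ≠ 0 := by
    intro ζ h0
    have := ζ.2
    rw [h0, zero_pow (by omega)] at this
    exact zero_ne_one this
  have hsq1 : q ^ 2 - 1 + 1 = q ^ 2 := by
    have : 0 < q ^ 2 := by positivity
    omega
  have hmain : Nat.card (S' × Zt) ≤ Nat.card (XU φ ρ) := by
    refine Nat.card_le_card_of_injective
      (fun x : S' × Zt => (⟨(x.1.1, τ₀ x.1.1 * x.2.1), ?_, ?_, ?_, ?_, ?_⟩ : XU φ ρ)) ?_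
    · exact (hprop x.1.1 x.1.2).1
    · exact (hprop x.1.1 x.1.2).2.1
    · exact mul_ne_zero (hτ₀ x.1.1 x.1.2).1 (hζ x.2)
    · simp only
      rw [f4]
      have h1 : (τ₀ x.1.1 * x.2.1) ^ (q ^ 2 - 1) = 1 := by
        rw [mul_pow, (hτ₀ x.1.1 x.1.2).2.1, one_mul]
        have h5 : q ^ 2 - 1 = (q + 1) * (q - 1) := by
          obtain ⟨k, hk⟩ : ∃ k, q = k + 1 := ⟨q - 1, by omega⟩
          rw [hk]
          have h1 : k + 1 - 1 = k := by omega
          rw [h1]
          have h3 : (k + 1) ^ 2 = (k + 1 + 1) * k + 1 := by ring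
          omega
        rw [h5, pow_mul, x.2.2, one_pow]
      rw [← hsq1, pow_succ, h1, one_mul]
    · simp only
      rw [f2 (τ₀ x.1.1 * x.2.1)]
      have h1 : τ₀ x.1.1 * x.2.1 * (τ₀ x.1.1 * x.2.1) ^ q = τ₀ x.1.1 ^ (q + 1) := by
        rw [← pow_succ', mul_pow, x.2.2, mul_one]
      rw [h1, mul_assoc]
      exact (hτ₀ x.1.1 x.1.2).2.2
    · intro x y hxy
      have h1 := congrArg Subtype.val hxy
      simp only [Prod.mk.injEq] at h1
      obtain ⟨h3, h4⟩ := h1
      rw [h3] at h4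
      have h5 := mul_left_cancel₀ (hτ₀ y.1.1 y.1.2).1 h4
      exact Prod.ext (Subtype.ext h3) (Subtype.ext h5)
  rw [Nat.card_prod, Nat.card_eq_fintype_card, Fintype.card_coe] at hmain
  have h6 : (q ^ 2 - 2 * q) * (q + 1) ≤ Nat.card (XU φ ρ) :=
    (Nat.mul_le_mul hS'card hZt).trans hmain
  have h7 : q0 ^ 6 = q ^ 3 := by rw [hq, ← pow_mul]
  rw [h7]
  obtain ⟨k, hk⟩ : ∃ k, q = k + 4 := ⟨q - 4, by omega⟩
  have h8 : q ^ 2 - 2 * q = k ^ 2 + 6 * k + 8 := by
    rw [hk]
    have : (k + 4) ^ 2 = k ^ 2 + 6 * k + 8 + 2 * (k + 4) := by ring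
    omega
  rw [h8, hk] at h6
  rw [hk]
  have h9 : (k + 4) ^ 3 ≤ 4 * ((k ^ 2 + 6 * k + 8) * (k + 4 + 1)) := by
    have : 4 * ((k ^ 2 + 6 * k + 8) * (k + 4 + 1)) = (k + 4) ^ 3 +
      (3 * k ^ 3 + 32 * k ^ 2 + 104 * k + 96) := by ring
    omega
  exact h9.trans (Nat.mul_le_mul_left _ h6)

end Pool.Agent.Helper69.GU
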